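import Mathlib
import Pool.Agent.W658.TIDefs
import Pool.Agent.W658.ConeFinal

/-!
# MP_b9f29c_an: stably finite nuclear C*-algebras need not be locally approximable by type I

There is a separable, nuclear, stably finite, unital C*-algebra that is not locally approximable by
type I C*-algebras: the unitised cone over the Cuntz algebra `O₂`.
-/

set_option autoImplicit false

namespace Pool.Agent.Results.MP_b9f29c_an.ConeCounterexample

open Pool.Agent.W658.TypeI

/-- There is a unital C*-algebra that is separable, nuclear and stably finite, but is not locally
approximable by type I C*-algebras. -/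
theorem result : ∃ (A : Type) (_ : CStarAlgebra A) (_ : PartialOrder A) (_ : StarOrderedRing A),
    TopologicalSpace.SeparableSpace A ∧ IsNuclear A ∧ IsStablyFinite A ∧ ¬ LocallyTypeI A :=
  ⟨Pool.Agent.W658.Cone.CA, inferInstance, inferInstance, inferInstance,
    Pool.Agent.W658.Cone.separable_CA, Pool.Agent.W658.Cone.nuclear_CA,
    Pool.Agent.W658.Cone.stablyFinite_CA, Pool.Agent.W658.Cone.not_locallyTypeI_CA⟩

end Pool.Agent.Results.MP_b9f29c_an.ConeCounterexample
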